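import Mathlib
import Pool.Agent.N824.CJ.BridgeR

/-!
# Extension of symplectic forms from coarse maps

`X` is a manifold of dimension `n` (Hausdorff, second countable, not necessarily compact), `Z` a
closed subset, `ω₀` a smooth closed two-form on `X`. The theorem characterizes when there is a
symplectic form `σ = ω₀ + dα` (respectively a closed form `σ = ω₀ + dα` taming a given continuous
almost complex structure `J`), where the smooth one-form `α` vanishes outside a compact subset of
`X \ Z`. By Gromov's h-principle an almost complex structure on a closed manifold `X` and a class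
in `H²(X; ℝ)` provide such an `ω₀`, symplectic near `Z`, where `Z` is the complement of an open
ball: the question for `X` is whether the symplectic form extends over the ball.

The criterion: there are an open set `U` containing `Z`, with compact complement, on which `ω₀` is
nondegenerate (tames `J`), and maps `f r : X → (ℝ²)^N`, for arbitrarily small scales `r`, which
vanish on `U`, have no regularity besides local integrability, and near the points outside `U`, on
the balls of radius comparable with `r`, are *in the mean* close to affine maps, with an error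
`δ` which is small compared with the nondegeneracy (the positivity on the complex lines) of
`ω₀ + L^*(∑ dx ∧ dy)`, `L` the linear part.

The definitions are in `Pool/Agent/N824/CJ/PubR.lean` (`HasCoarseRel`, `InClassRel`, `PositiveOn`),
`Pool/Agent/N824/CJ/Pub.lean` (`CoarseAt`, `Robust`, `AffineInMean`, `GoodParam`, `Nondeg`) and in
the starting file `Pool/Agent/Y501/SY/Pub.lean` (forms, almost complex structures, taming).
-/

set_option autoImplicit false

open scoped Manifold ContDiff

namespace Pool.Agent.Results.MP_2a78db_gt.CoarseExtension

open Pool.Agent.Y501.SYP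
open Pool.Agent.N824.CJP

theorem result (n : ℕ) : ∃ C₀ : ℕ → ℝ, ∀ C : ℕ → ℝ, (∀ N, C₀ N ≤ C N) →
    ∀ (X : Type) [TopologicalSpace X] [ChartedSpace (ES n) X] [IsManifold 𝓘(ℝ, ES n) ∞ X]
      [T2Space X] [SecondCountableTopology X] (Z : Set X) (ω₀ : Form (ES n) X 2), IsClosed Z →
      IsSmooth ω₀ → IsClosedForm ω₀ →
      ((∃ σ : Form (ES n) X 2, InClassRel Z ω₀ σ ∧ Nondeg σ) ↔
        HasCoarseRel n (vol n) C Z ω₀ (allPairs (ES n) X)) ∧
      ∀ J : End (ES n) X, IsAlmostComplex J →
        ((∃ σ : Form (ES n) X 2, InClassRel Z ω₀ σ ∧ ∀ x, TamesAt σ J x) ↔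
          HasCoarseRel n (vol n) C Z ω₀ (complexPairs J)) :=
  ⟨fun N => 4 * N * Pool.Agent.N824.CJ.CJ n ^ 2, fun C hC X _ _ _ _ _ Z ω₀ hZ hs hc =>
    mainRelP n C hC X Z hZ ω₀ hs hc⟩

end Pool.Agent.Results.MP_2a78db_gt.CoarseExtension
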